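import Pool.Agent.Helper5.WD.Stmts

/-! Module GHDF. -/

set_option autoImplicit false

open Finset Pool.Agent.Helper8.UN Pool.Agent.Helper5.FV

namespace Pool.Agent.Helper5.WD

theorem ghdf_X {n : ℕ} (hn : 40000 ≤ n) : 100 ≤ (n : ℝ) / Real.log n := by
  have hn' : (40000 : ℝ) ≤ n := by exact_mod_cast hn
  have hn0 : (0 : ℝ) < n := by linarith
  obtain ⟨s, hs⟩ : ∃ s : ℝ, s = Real.sqrt n := ⟨_, rfl⟩
  have hs0 : 0 < s := by rw [hs]; exact Real.sqrt_pos.2 hn0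
  have hss : s * s = n := by rw [hs]; exact Real.mul_self_sqrt hn0.le
  have hs200 : 200 ≤ s := by
    rw [hs]
    exact Real.le_sqrt_of_sq_le (le_of_eq_of_le (by norm_num) hn')
  have hlog : Real.log n ≤ 2 * s := by
    have h1 : Real.log n = 2 * Real.log s := by
      rw [← hss, Real.log_mul hs0.ne' hs0.ne']
      ring
    have h2 := Real.log_le_sub_one_of_pos hs0
    rw [h1]
    linarith
  have hlog0 : 0 < Real.log n := Real.log_pos (by linarith)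
  rw [le_div_iff₀ hlog0]
  nlinarith

theorem ghdf_left {n : ℕ} {S T : Finset (Fin n → ℕ)} {ω : (Fin n → ℕ) → (Fin n → ℕ) → ℝ}
    (h : Cpl S T ω) (a : (Fin n → ℕ) → ℝ) :
    ∑ f ∈ S, ∑ g ∈ T, ω f g * a f = (∑ f ∈ S, a f) / S.card := by
  rw [Finset.sum_div]
  refine Finset.sum_congr rfl fun f hf => ?_
  rw [← Finset.sum_mul, h.l f hf]
  ring

theorem ghdf_right {n : ℕ} {S T : Finset (Fin n → ℕ)} {ω : (Fin n → ℕ) → (Fin n → ℕ) → ℝ}
    (h : Cpl S T ω) (a : (Fin n → ℕ) → ℝ) :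
    ∑ f ∈ S, ∑ g ∈ T, ω f g * a g = (∑ g ∈ T, a g) / T.card := by
  rw [Finset.sum_comm, Finset.sum_div]
  refine Finset.sum_congr rfl fun g hg => ?_
  rw [← Finset.sum_mul, h.r g hg]
  ring

theorem ghdf_pne {n : ℕ} {S T : Finset (Fin n → ℕ)} {ω : (Fin n → ℕ) → (Fin n → ℕ) → ℝ}
    (N : Finset (Fin n)) :
    ∑ f ∈ S, ∑ g ∈ T, ω f g * ((N.filter (fun z => f z ≠ g z)).card : ℝ) =
      ∑ z ∈ N, pne S T ω z := by
  unfold pne
  have h1 : ∑ z ∈ N, ∑ f ∈ S, ∑ g ∈ T, (if f z = g z then 0 else ω f g) =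
      ∑ f ∈ S, ∑ z ∈ N, ∑ g ∈ T, (if f z = g z then 0 else ω f g) := Finset.sum_comm
  rw [h1]
  refine Finset.sum_congr rfl fun f _ => ?_
  have h2 : ∑ z ∈ N, ∑ g ∈ T, (if f z = g z then 0 else ω f g) =
      ∑ g ∈ T, ∑ z ∈ N, (if f z = g z then 0 else ω f g) := Finset.sum_comm
  rw [h2]
  refine Finset.sum_congr rfl fun g _ => ?_
  rw [Finset.card_filter]
  push_cast
  rw [Finset.mul_sum]
  refine Finset.sum_congr rfl fun z _ => ?_
  by_cases hz : f z = g z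
  · simp [hz]
  · simp [hz]

theorem st_GHDF (h1 : ST_GH1) (h2 : ST_BKC) (h3 : ST_GRGM) (h4 : ST_GPOS) : ST_GHDF := by
  obtain ⟨n1, hn1⟩ := h3
  refine ⟨max n1 40000, fun n hn D0 r k E W v hReg hk hv => ?_⟩
  have hn1' : n1 ≤ n := (le_max_left _ _).trans hn
  have hn2 : 40000 ≤ n := (le_max_right _ _).trans hn
  have hX := ghdf_X hn2
  obtain ⟨hr4, hDk, hD0k, hk4, hNB, -, hbl⟩ := hn1 n hn1' D0 r k E hReg (by linarith)
  have hk1 : 1 ≤ k := by omega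
  have hkc : ((k - 1 : ℕ) : ℝ) = k - 1 := by
    push_cast [Nat.cast_sub hk1]
    ring
  obtain ⟨-, hDk', -, -, -, hGD, hbl'⟩ := hn1 n hn1' D0 r (k - 1) E hReg (by
    rw [hkc]; linarith)
  obtain ⟨W1, hW1⟩ : ∃ W1, W1 = W.erase v := ⟨_, rfl⟩
  have hPS : 0 < PP E W1 (k - 1) :=
    (h4 n (D0 + 1) (k - 1) (k - 1) E W1 hReg.two hGD le_rfl (by omega)).1
  have hPT : 0 < PP E W1 k :=
    (h4 n (D0 + 1) (k - 1) k E W1 hReg.two hGD (by omega) (by omega)).1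
  obtain ⟨ω, hω, hpne⟩ := h1 n D0 k E W1 (1 / 20000) hReg.two hNB (by omega) (by omega)
    (by norm_num) hPS hPT
    (fun y hy => (hbl' W1 W1 y hy (Or.inl rfl)).1)
    (fun y hy => (hbl W1 W1 y hy (Or.inl rfl)).1)
  have e5' := (hbl' W W1 v hv (Or.inr hW1)).1
  have e6' := (hbl W W1 v hv (Or.inr hW1)).1
  have hhk : hh E W k v = (∑ g ∈ CC E W1 k, (bk E W k g v : ℝ)) / ((CC E W1 k).card : ℝ) := by
    rw [hW1]; rfl
  have hhk' : hh E W (k - 1) v =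
      (∑ f ∈ CC E W1 (k - 1), (bk E W (k - 1) f v : ℝ)) / ((CC E W1 (k - 1)).card : ℝ) := by
    rw [hW1]; rfl
  have hbkc : ∀ f ∈ CC E W1 (k - 1), ∀ g ∈ CC E W1 k,
      |(bk E W (k - 1) f v : ℝ) - bk E W k g v| ≤
      ((nb E W v).filter (fun z => f z ≠ g z)).card + bl3 E W (k - 1) f v + bl3 E W k g v := by
    intro f hf g hg
    rw [hW1] at hf hg
    exact h2 n k (k - 1) E W v f g hReg.two hv hf hg
  have hSpos : 0 < ((CC E W1 (k - 1)).card : ℝ) := by exact_mod_cast hPS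
  have hTpos : 0 < ((CC E W1 k).card : ℝ) := by exact_mod_cast hPT
  have e5a : ∑ f ∈ CC E W1 (k - 1), (bl3 E W (k - 1) f v : ℝ) ≤
      ((CC E W1 (k - 1)).card : ℝ) * (1 / 20000) := e5'
  have e6a : ∑ f ∈ CC E W1 k, (bl3 E W k f v : ℝ) ≤ ((CC E W1 k).card : ℝ) * (1 / 20000) := e6'
  generalize CC E W1 (k - 1) = S at hω hpne hhk' hbkc hSpos e5a
  generalize CC E W1 k = T at hω hpne hhk hbkc hTpos e6a
  have e1 : hh E W k v = ∑ f ∈ S, ∑ g ∈ T, ω f g * (bk E W k g v : ℝ) := by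
    rw [ghdf_right hω (fun g => (bk E W k g v : ℝ)), hhk]
  have e2 : hh E W (k - 1) v = ∑ f ∈ S, ∑ g ∈ T, ω f g * (bk E W (k - 1) f v : ℝ) := by
    rw [ghdf_left hω (fun f => (bk E W (k - 1) f v : ℝ)), hhk']
  have e3 : |hh E W k v - hh E W (k - 1) v| ≤ ∑ f ∈ S, ∑ g ∈ T, ω f g *
      ((((nb E W v).filter (fun z => f z ≠ g z)).card : ℝ) + (bl3 E W (k - 1) f v : ℝ) +
        (bl3 E W k g v : ℝ)) := by
    rw [e1, e2, ← Finset.sum_sub_distrib]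
    refine (Finset.abs_sum_le_sum_abs _ _).trans (Finset.sum_le_sum fun f hf => ?_)
    rw [← Finset.sum_sub_distrib]
    refine (Finset.abs_sum_le_sum_abs _ _).trans (Finset.sum_le_sum fun g hg => ?_)
    rw [← mul_sub, abs_mul, abs_of_nonneg (hω.nn f g)]
    refine mul_le_mul_of_nonneg_left ?_ (hω.nn f g)
    rw [abs_sub_comm]
    exact hbkc f hf g hg
  have e4 : ∑ f ∈ S, ∑ g ∈ T, ω f g *
      ((((nb E W v).filter (fun z => f z ≠ g z)).card : ℝ) + (bl3 E W (k - 1) f v : ℝ) +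
        (bl3 E W k g v : ℝ)) = ∑ z ∈ nb E W v, pne S T ω z +
        (∑ f ∈ S, (bl3 E W (k - 1) f v : ℝ)) / S.card +
        (∑ g ∈ T, (bl3 E W k g v : ℝ)) / T.card := by
    rw [← ghdf_pne, ← ghdf_left hω (fun f => (bl3 E W (k - 1) f v : ℝ)),
      ← ghdf_right hω (fun g => (bl3 E W k g v : ℝ))]
    simp only [mul_add, Finset.sum_add_distrib]
  have e5 : (∑ f ∈ S, (bl3 E W (k - 1) f v : ℝ)) / S.card ≤ 1 / 20000 := by
    rw [div_le_iff₀ hSpos, mul_comm]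
    exact e5a
  have e6 : (∑ g ∈ T, (bl3 E W k g v : ℝ)) / T.card ≤ 1 / 20000 := by
    rw [div_le_iff₀ hTpos, mul_comm]
    exact e6a
  have hkR : (10000 : ℝ) ≤ k := by exact_mod_cast hk4
  have hD0R : 10000 * (D0 : ℝ) ≤ k := by exact_mod_cast hD0k
  have hkD : 0 < (k : ℝ) - 2 * D0 := by
    have : (0 : ℝ) ≤ D0 := Nat.cast_nonneg _
    linarith
  have e7 : ∑ z ∈ nb E W v, pne S T ω z ≤ 7 / 10000 := by
    have g1 : ∑ z ∈ nb E W v, pne S T ω z ≤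
        (nb E W v).card * (3 * ((1 + 2 * (1 / 20000)) / (((k : ℝ) - 2 * D0) / 2))) := by
      rw [← nsmul_eq_mul]
      exact Finset.sum_le_card_nsmul _ _ _ fun z _ => hpne z
    have g2 : ((nb E W v).card : ℝ) ≤ D0 := by exact_mod_cast hNB W v
    have g3 : (0 : ℝ) ≤ 3 * ((1 + 2 * (1 / 20000)) / (((k : ℝ) - 2 * D0) / 2)) := by positivity
    have g4 : (D0 : ℝ) * (3 * ((1 + 2 * (1 / 20000)) / (((k : ℝ) - 2 * D0) / 2))) ≤
        7 / 10000 := by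
      have g5 : (D0 : ℝ) * (3 * ((1 + 2 * (1 / 20000)) / (((k : ℝ) - 2 * D0) / 2))) =
          (D0 * (6 * (1 + 2 * (1 / 20000)))) / ((k : ℝ) - 2 * D0) := by
        field_simp
        ring
      rw [g5, div_le_iff₀ hkD]
      linarith
    exact g1.trans ((mul_le_mul_of_nonneg_right g2 g3).trans g4)
  refine e3.trans ?_
  rw [e4]
  linarith

end Pool.Agent.Helper5.WD
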